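import Mathlib

namespace Pool.Agent.Results.MP_5491e1_lc.Counter

/-- `t` is ranked first by the strict order `r` (`r x y` reads: `x` is ranked above `y`). -/
def IsTop {C : Type} (r : C → C → Prop) (t : C) : Prop := ∀ b, b ≠ t → r t b

/-- `a` is among the `k` highest ranked candidates: fewer than `k` candidates are above it. -/
def InTopK {C : Type} (r : C → C → Prop) (k : ℕ) (a : C) : Prop := Set.ncard {b | r b a} < k

/-- `(i, j)` is an edge of `G_k(a)`: `top(j) = a`, or `a ∈ L_i` and voter `i` does not rank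
`top(j)` above `a`. -/
def Edge {V C : Type} (pref : V → C → C → Prop) (k : ℕ) (a : C) (i j : V) : Prop :=
  ∃ t, IsTop (pref j) t ∧ (t = a ∨ (InTopK (pref i) k a ∧ ¬ pref i t a))

/-- Positions of the 11 candidates in the rankings of the 5 voters. -/
def rk (i : Fin 5) (c : Fin 11) : ℕ :=
  if i.val = 0 then (if c.val = 0 then 0 else if c.val ≤ 2 then c.val + 8 else c.val - 2)
  else if i.val ≤ 2 then (if c.val = 0 then 1 else if c.val = 1 then 0 else c.val)
  else (if c.val = 2 then 0 else if c.val ≤ 1 then c.val + 9 else c.val - 2)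

def tp (i : Fin 5) : Fin 11 := if i.val = 0 then 0 else if i.val ≤ 2 then 1 else 2

def eb (a : Fin 11) (i j : Fin 5) : Bool :=
  decide (tp j = a) || (decide (rk i a < 9) && !decide (rk i (tp j) < rk i a))

theorem rk_inj : ∀ i a b, rk i a = rk i b → a = b := by decide +kernel

theorem top_eq : ∀ (j : Fin 5) (t : Fin 11), (∀ b, b ≠ t → rk j t < rk j b) → t = tp j := by
  decide +kernel

theorem card_eq : ∀ (i : Fin 5) (a : Fin 11),
    (Finset.univ.filter (fun b => rk i b < rk i a)).card = rk i a := by decide +kernel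

theorem no_pm : ∀ (a : Fin 11) (x0 x1 x2 x3 x4 : Fin 5), eb a 0 x0 = true → eb a 1 x1 = true →
    eb a 2 x2 = true → eb a 3 x3 = true → eb a 4 x4 = true →
    x0 = x1 ∨ x0 = x2 ∨ x0 = x3 ∨ x0 = x4 ∨ x1 = x2 ∨ x1 = x3 ∨ x1 = x4 ∨ x2 = x3 ∨ x2 = x4 ∨
      x3 = x4 := by decide +kernel

theorem edge_eb (a : Fin 11) (i j : Fin 5)
    (h : Edge (fun i x y => rk i x < rk i y) 9 a i j) : eb a i j = true := by
  obtain ⟨t, ht, h⟩ := h
  have e := top_eq j t ht
  subst e
  unfold eb
  rcases h with h | ⟨h1, h2⟩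
  · simp [h]
  · have hc : Set.ncard {b | rk i b < rk i a} = rk i a := by
      have e1 : {b | rk i b < rk i a} =
          ((Finset.univ.filter (fun b => rk i b < rk i a) : Finset (Fin 11)) : Set (Fin 11)) := by
        ext b
        simp
      rw [e1, Set.ncard_coe_finset, card_eq]
    unfold InTopK at h1
    rw [hc] at h1
    simp [h1, h2]

theorem result : ∃ (n m k : ℕ) (pref : Fin n → Fin m → Fin m → Prop),
    1 ≤ n ∧ 1 ≤ k ∧ k ≤ m ∧ (∀ i, IsStrictTotalOrder (Fin m) (pref i)) ∧
    ∀ (a : Fin m) (S : Finset (Fin n)) (M : S ≃ S),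
      (∀ i : S, Edge pref k a i (M i)) → (S.card : ℝ) < (n : ℝ) * k / m := by
  refine ⟨5, 11, 9, fun i x y => rk i x < rk i y, by norm_num, by norm_num, by norm_num, ?_, ?_⟩
  · intro i
    have : Std.Trichotomous (fun x y : Fin 11 => rk i x < rk i y) :=
      ⟨fun a b h1 h2 => rk_inj i a b (by omega)⟩
    have : Std.Irrefl (fun x y : Fin 11 => rk i x < rk i y) := ⟨fun a => lt_irrefl _⟩
    have : IsTrans (Fin 11) (fun x y : Fin 11 => rk i x < rk i y) :=
      ⟨fun a b c h1 h2 => lt_trans h1 h2⟩
    exact {}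
  · intro a S M h
    have hle : S.card ≤ 4 := by
      by_contra hc
      have hS : S = Finset.univ := by
        apply Finset.eq_univ_of_card
        have := Finset.card_le_univ S
        simp at this ⊢
        omega
      have hm : ∀ i : Fin 5, i ∈ S := fun i => hS ▸ Finset.mem_univ i
      have he : ∀ i : Fin 5, eb a i (M ⟨i, hm i⟩).val = true := fun i => edge_eb a i _ (h ⟨i, hm i⟩)
      have hi : ∀ i j : Fin 5, (M ⟨i, hm i⟩).val = (M ⟨j, hm j⟩).val → i = j := by
        intro i j e
        have := M.injective (Subtype.ext e)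
        exact congrArg Subtype.val this
      rcases no_pm a _ _ _ _ _ (he 0) (he 1) (he 2) (he 3) (he 4) with
        e | e | e | e | e | e | e | e | e | e <;> exact absurd (hi _ _ e) (by decide)
    have : (S.card : ℝ) ≤ 4 := by exact_mod_cast hle
    norm_num
    linarith

end Pool.Agent.Results.MP_5491e1_lc.Counter
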